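import Pool.Agent.ACY.MFi
import Pool.Agent.ACY.Trf

set_option autoImplicit false

/-!
# An FPRAS for the Tutte polynomial at all points `x ≥ 1`, `0 ≤ y < 1`, on all graphs
-/

namespace Pool.Agent.Results.MP_e767af_lc.AllGraphsFPRAS

open Pool.Agent.Helper47.TR Pool.Agent.TFP

/-- For all rational `x ≥ 1` and `0 ≤ y < 1` the Tutte polynomial `T(G; x, y)` has a fully polynomial
randomised approximation scheme on the class of all multigraphs. -/
theorem result (x y : ℚ) (hx : 1 ≤ x) (hy0 : 0 ≤ y) (hy1 : y < 1) :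
    HasFPRAS (fun _ => True) (tutte x y) :=
  ACY.Trf.final (fun _ h => ACY.M.fpras_zero h) hx hy0 hy1

end Pool.Agent.Results.MP_e767af_lc.AllGraphsFPRAS
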