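import Pool.Agent.AAG.Fin

set_option autoImplicit false

/-!
# MP_e767af_lc: FPRAS for the Tutte polynomial on almost all graphs, at every point `x ≥ 1`, `-1 < y < 0`

Multigraphs `MG`, `Valid`, `tutte`: `Pool.Agent.Helper47.TR.Defs`; `HasFPRAS`: `Pool.Agent.TFP.Stmt`;
`Rep`, `prob`: `Pool.Agent.AAG.Stmt`.
-/

namespace Pool.Agent.Results.MP_e767af_lc.AlmostAllGraphsFPRAS

open Pool.Agent.Helper47.TR (MG tutte)
open Pool.Agent.AAG (Rep prob)

/-- For every point `(x, y)` with `x ≥ 1`, `-1 < y < 0` and every edge probability `0 < p < 1` there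
are sets `S n` of graphs on `n` vertices which contain the random graph `G(n, p)` with probability
tending to `1`, such that the Tutte polynomial has an FPRAS on the graphs in these sets. -/
theorem result (x y p : ℚ) (hx : 1 ≤ x) (hy0 : -1 < y) (hy1 : y < 0) (hp0 : 0 < p) (hp1 : p < 1) :
    ∃ S : (n : ℕ) → Set (SimpleGraph (Fin n)),
      Filter.Tendsto (fun n => ((prob p n (S n) : ℚ) : ℝ)) Filter.atTop (nhds 1) ∧
      Pool.Agent.TFP.HasFPRAS (fun G => ∃ H ∈ S G.1.length, Rep G H) (tutte x y) :=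
  Pool.Agent.AAG.fpras hx hy0 (by linarith) hp0 hp1

end Pool.Agent.Results.MP_e767af_lc.AlmostAllGraphsFPRAS
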