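import Pool.Agent.TFN.Main

set_option autoImplicit false

/-!
# An FPRAS for the Tutte polynomial, `x > 1`, `-1 < y < 0`, on graphs of maximum degree `≤ x / (1 - y)`
-/

namespace Pool.Agent.Results.MP_e767af_lc.NegativeYFPRAS

open Pool.Agent.Helper47.TR Pool.Agent.TFP

/-- Let `x > 1`, `-1 < y < 0` be rational. `T(G; x, y)` has a fully polynomial randomised
approximation scheme on the multigraphs all of whose vertices have at most `x / (1 - y)` non-loop
edges. -/
theorem result (x y : ℚ) (hx : 1 < x) (hy0 : -1 < y) (hy1 : y < 0) :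
    HasFPRAS (fun G => ∀ v, (1 - y) * (deg G v : ℚ) ≤ x) (tutte x y) :=
  Pool.Agent.TFN.main x y hx hy0 hy1

end Pool.Agent.Results.MP_e767af_lc.NegativeYFPRAS
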