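import Pool.Agent.NZF.Main

set_option autoImplicit false

/-!
# Zeros of the Tutte polynomial near every point of R

The definitions (`comps`, `tutte`) are in `Pool/Agent/NZF/Defs.lean`.
-/

namespace Pool.Agent.Results.MP_e767af_lc.NoZeroFreeRegion

open Pool.Agent.NZF

/-- For every real `x ≥ 1` the zeros of `y ↦ T(G; x, y)`, `G` running through the finite connected
bipartite simple graphs, are dense in the complex plane. -/
theorem result (x : ℝ) (hx : 1 ≤ x) (y₀ : ℂ) (ε : ℝ) (hε : 0 < ε) :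
    ∃ (V : Type) (_ : Fintype V) (G : SimpleGraph V) (y : ℂ),
      G.Connected ∧ G.Colorable 2 ∧ ‖y - y₀‖ < ε ∧ tutte G (x : ℂ) y = 0 := by
  obtain ⟨k, n, K, m, m₁, m₂, y, hc, hd, hz⟩ := main_all hx y₀ hε
  exact ⟨_, inferInstance, theta k n K m m₁ m₂, y, hc, theta_colorable _ _ _ _ _ _, hd, hz⟩

end Pool.Agent.Results.MP_e767af_lc.NoZeroFreeRegion
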